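import Pool.Agent.Results.MP_adec7c_al.BurnsideQuotients

/-!
# A locally compact hereditarily minimal group with nontrivial centre that is not hereditarily
totally minimal
-/

set_option autoImplicit false
set_option linter.style.haveILetI false

namespace Pool.Agent.Results.MP_fd686d_al.NotHTM

open Topology Pool.Agent.Results.MP_adec7c_al.BurnsideQuotients

universe u

/-- A topological group is minimal if there is no strictly coarser Hausdorff group topology. -/
def MinimalGrp (G : Type u) [Group G] [τ : TopologicalSpace G] : Prop :=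
  ∀ σ : TopologicalSpace G, @IsTopologicalGroup G σ _ → @T2Space G σ → τ ≤ σ → σ = τ

/-- A topological group is totally minimal if all its quotients by closed normal subgroups are
minimal. -/
def TotallyMinimalGrp (G : Type u) [Group G] [TopologicalSpace G] : Prop :=
  ∀ (N : Subgroup G) [N.Normal], IsClosed (N : Set G) → MinimalGrp (G ⧸ N)

/-- A topological group is hereditarily minimal if all its subgroups are minimal. -/
def HM (G : Type u) [Group G] [TopologicalSpace G] : Prop :=
  ∀ H : Subgroup G, MinimalGrp H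

/-- A topological group is hereditarily totally minimal if all its subgroups are totally
minimal. -/
def HTM (G : Type u) [Group G] [TopologicalSpace G] : Prop :=
  ∀ H : Subgroup G, TotallyMinimalGrp H

/-- The endomorphism of the free group that kills the generators with index at least `n`. -/
def cut (n : ℕ) : FreeGroup ℕ →* FreeGroup ℕ :=
  FreeGroup.lift fun k => if k < n then FreeGroup.of k else 1

/-- The subgroup generated by the `p`-th powers. -/
abbrev P (p : ℕ) : Subgroup (FreeGroup ℕ) :=
  Subgroup.normalClosure (Set.range fun g : FreeGroup ℕ => g ^ p)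

theorem P_le_comap (p : ℕ) (f : FreeGroup ℕ →* FreeGroup ℕ) : P p ≤ (P p).comap f := by
  apply Subgroup.normalClosure_le_normal
  rintro _ ⟨g, rfl⟩
  show f (g ^ p) ∈ P p
  rw [map_pow]
  exact Subgroup.subset_normalClosure ⟨f g, rfl⟩

/-- The retraction of the free Burnside group that kills the generators with index at
least `n`. -/
def ret (p n : ℕ) : FreeBurnside ℕ p →* FreeBurnside ℕ p :=
  QuotientGroup.map (P p) (P p) (cut n) (P_le_comap p _)

theorem ret_mk (p n : ℕ) (g : FreeGroup ℕ) :
    ret p n (g : FreeBurnside ℕ p) = ((cut n g : FreeGroup ℕ) : FreeBurnside ℕ p) := rfl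

theorem exists_cut (g : FreeGroup ℕ) : ∃ n, ∀ m, n ≤ m → cut m g = g := by
  induction g using FreeGroup.induction_on with
  | C1 => exact ⟨0, fun m _ => map_one _⟩
  | of k =>
    refine ⟨k + 1, fun m hm => ?_⟩
    rw [cut, FreeGroup.lift_apply_of, if_pos (by omega)]
  | inv_of k ih =>
    obtain ⟨n, hn⟩ := ih
    exact ⟨n, fun m hm => by rw [map_inv, hn m hm]⟩
  | mul x y ihx ihy =>
    obtain ⟨n, hn⟩ := ihx
    obtain ⟨n', hn'⟩ := ihy
    exact ⟨max n n', fun m hm => by
      rw [map_mul, hn m (le_trans (le_max_left _ _) hm), hn' m (le_trans (le_max_right _ _) hm)]⟩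

/-- The hom to the product. -/
def toPi (p : ℕ) : FreeBurnside ℕ p →* (ℕ → FreeBurnside ℕ p) := MonoidHom.pi (ret p)

theorem toPi_injective (p : ℕ) : Function.Injective (toPi p) := by
  rw [injective_iff_map_eq_one]
  intro x hx
  obtain ⟨g, rfl⟩ := QuotientGroup.mk_surjective x
  obtain ⟨n, hn⟩ := exists_cut g
  have h1 : ret p n (g : FreeBurnside ℕ p) = 1 := congrFun hx n
  rw [ret_mk, hn n le_rfl] at h1
  exact h1

theorem of_ne_one {p : ℕ} (hp : 1 < p) (k : ℕ) :
    ((FreeGroup.of k : FreeGroup ℕ) : FreeBurnside ℕ p) ≠ 1 := by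
  intro h
  rw [QuotientGroup.eq_one_iff] at h
  let f : FreeGroup ℕ →* Multiplicative (ZMod p) :=
    FreeGroup.lift fun _ => Multiplicative.ofAdd 1
  have hle : P p ≤ f.ker := by
    apply Subgroup.normalClosure_le_normal
    rintro _ ⟨g, rfl⟩
    show f (g ^ p) = 1
    rw [map_pow]
    apply Multiplicative.toAdd.injective
    rw [toAdd_pow, toAdd_one]
    simp
  have h1 : f (FreeGroup.of k) = 1 := hle h
  rw [FreeGroup.lift_apply_of] at h1
  have h2 : (1 : ZMod p) = 0 := congrArg Multiplicative.toAdd h1
  haveI : Fact (1 < p) := ⟨hp⟩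
  exact one_ne_zero h2

/-- The discrete topology of a free Burnside group of infinite rank is not minimal. -/
theorem not_minimal {p : ℕ} (hp : 1 < p) {Q : Type u} [Group Q] [τ : TopologicalSpace Q]
    [hτ : DiscreteTopology Q] (e : Q ≃* FreeBurnside ℕ p) : ¬ MinimalGrp Q := by
  intro hmin
  letI tB : TopologicalSpace (FreeBurnside ℕ p) := ⊥
  haveI : @DiscreteTopology (FreeBurnside ℕ p) tB := ⟨rfl⟩
  haveI : @IsTopologicalGroup (FreeBurnside ℕ p) tB _ :=
    { continuous_mul := continuous_of_discreteTopology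
      continuous_inv := continuous_of_discreteTopology }
  let Φ : Q →* (ℕ → FreeBurnside ℕ p) := (toPi p).comp e.toMonoidHom
  have hΦ : Function.Injective Φ := (toPi_injective p).comp e.injective
  let σ : TopologicalSpace Q := TopologicalSpace.induced Φ inferInstance
  have h1 : @IsTopologicalGroup Q σ _ := topologicalGroup_induced Φ
  have h2 : @T2Space Q σ := by
    letI := σ
    exact T2Space.of_injective_continuous hΦ continuous_induced_dom
  have h3 : σ = τ := hmin σ h1 h2 (by
    have h0 : τ = ⊥ := hτ.eq_bot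
    rw [h0]
    exact bot_le)
  -- the sequence of the generators
  let a : ℕ → Q := fun k => e.symm ((FreeGroup.of k : FreeGroup ℕ) : FreeBurnside ℕ p)
  have ha : @Filter.Tendsto ℕ Q a Filter.atTop (@nhds Q σ 1) := by
    letI := σ
    rw [nhds_induced, Filter.tendsto_comap_iff, map_one, tendsto_pi_nhds]
    intro n
    apply tendsto_const_nhds.congr'
    filter_upwards [Filter.eventually_ge_atTop n] with k hk
    show (1 : FreeBurnside ℕ p) = ret p n (e (e.symm _))
    rw [e.apply_symm_apply, ret_mk, cut, FreeGroup.lift_apply_of, if_neg (by omega)]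
    rfl
  rw [h3] at ha
  have h4 : ({1} : Set Q) ∈ @nhds Q τ 1 :=
    @IsOpen.mem_nhds Q τ 1 {1} (@isOpen_discrete Q τ hτ _) rfl
  have h4' : ∀ᶠ k in Filter.atTop, a k ∈ ({1} : Set Q) := ha h4
  obtain ⟨k, hk⟩ := h4'.exists
  have h5 : a k = 1 := hk
  apply of_ne_one hp k
  have h6 := congrArg e h5
  rw [map_one] at h6
  rw [← h6]
  exact (e.apply_symm_apply _).symm

/-- There is a locally compact Hausdorff hereditarily minimal group with nontrivial centre that is
not hereditarily totally minimal (it is not even totally minimal itself). -/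
theorem result : ∃ (G : Type) (_ : Group G) (_ : TopologicalSpace G) (_ : IsTopologicalGroup G)
    (_ : T2Space G) (_ : LocallyCompactSpace G), HM G ∧ Subgroup.center G ≠ ⊥ ∧
      ¬ TotallyMinimalGrp G ∧ ¬ HTM G := by
  obtain ⟨p0, h⟩ := Pool.Agent.Results.MP_adec7c_al.BurnsideQuotients.result.{0}.1
  obtain ⟨p, hle, hp⟩ := Nat.exists_infinite_primes p0
  haveI : Fact p.Prime := ⟨hp⟩
  obtain ⟨M, hG, hTop, hTG, hT2, -, hopen, ⟨eZ⟩, ⟨e⟩, -, -, -, -, hHM, hLC, -, -⟩ := h p hle ℕ
  have hmin : ∀ (N : Subgroup M) [N.Normal], N = Subgroup.center M → ¬ MinimalGrp (M ⧸ N) := by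
    intro N _ hN
    subst hN
    haveI : DiscreteTopology (M ⧸ Subgroup.center M) := QuotientGroup.discreteTopology hopen
    exact not_minimal hp.one_lt e
  have hTM : ¬ TotallyMinimalGrp M := by
    intro hT
    exact hmin _ rfl (hT (Subgroup.center M) (Subgroup.isClosed_of_isOpen _ hopen))
  refine ⟨M, hG, hTop, hTG, hT2, hLC, hHM, ?_, hTM, ?_⟩
  · intro hbot
    have h1 : eZ (Multiplicative.ofAdd 1) = eZ (Multiplicative.ofAdd 0) := by
      apply Subtype.ext
      have h2 := (eZ (Multiplicative.ofAdd 1)).2
      have h3 := (eZ (Multiplicative.ofAdd 0)).2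
      have h2' : (eZ (Multiplicative.ofAdd 1) : M) ∈ (⊥ : Subgroup M) := hbot ▸ h2
      have h3' : (eZ (Multiplicative.ofAdd 0) : M) ∈ (⊥ : Subgroup M) := hbot ▸ h3
      rw [Subgroup.mem_bot] at h2' h3'
      rw [h2', h3']
    have h4 : (1 : ℤ_[p]) = 0 := Multiplicative.ofAdd.injective (eZ.injective h1)
    exact one_ne_zero h4
  · intro hHTM
    -- pass to the subgroup `⊤`
    have hT := hHTM ⊤
    let c : (⊤ : Subgroup M) ≃* M := Subgroup.topEquiv
    have hcc : Continuous c := continuous_subtype_val
    let N : Subgroup (⊤ : Subgroup M) := (Subgroup.center M).comap c.toMonoidHom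
    haveI hNn : N.Normal := inferInstance
    have hNo : IsOpen (N : Set (⊤ : Subgroup M)) := hopen.preimage hcc
    haveI : DiscreteTopology ((⊤ : Subgroup M) ⧸ N) := QuotientGroup.discreteTopology hNo
    have e' : (⊤ : Subgroup M) ⧸ N ≃* M ⧸ Subgroup.center M :=
      QuotientGroup.congr N (Subgroup.center M) c (by
        ext x
        constructor
        · rintro ⟨y, hy, rfl⟩
          exact hy
        · intro hx
          exact ⟨⟨x, trivial⟩, hx, rfl⟩)
    exact not_minimal hp.one_lt (e'.trans e) (hT N (Subgroup.isClosed_of_isOpen _ hNo))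

end Pool.Agent.Results.MP_fd686d_al.NotHTM
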